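import Pool.Agent.helper17.CH.SpecQ

/-!
# Project CH (MP_5628fe_nt), row SP: the sum over the triples of primes
-/

set_option autoImplicit false

namespace Pool.Agent.CH

open Finset ArithmeticFunction MeasureTheory

private theorem SP_log : Real.log (1802901 / 400000) ≤ 1.5058 := by
  rw [Real.log_le_iff_le_exp (by norm_num)]
  refine le_trans ?_ (Real.sum_le_exp_of_nonneg (by norm_num : (0 : ℝ) ≤ 1.5058) 12)
  norm_num [Finset.sum_range_succ, Nat.factorial]

private theorem SP_int : ∫ t in (50 / 901 : ℝ)..(2001 / 8000), ((2001 / 2000 - 4 * t) ^ 2 / 2) / t ≤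
    2127 / 10000 := by
  have h0 : ∀ t ∈ Set.uIcc (50 / 901 : ℝ) (2001 / 8000), 0 < t := by
    intro t ht
    rw [Set.uIcc_of_le (by norm_num)] at ht
    linarith [ht.1]
  have h1 : ∫ t in (50 / 901 : ℝ)..(2001 / 8000), ((2001 / 2000 - 4 * t) ^ 2 / 2) / t =
      ((2001 / 2000 : ℝ) ^ 2 / 2 * Real.log (2001 / 8000) - 4 * (2001 / 2000) * (2001 / 8000) +
        4 * (2001 / 8000) ^ 2) -
      ((2001 / 2000 : ℝ) ^ 2 / 2 * Real.log (50 / 901) - 4 * (2001 / 2000) * (50 / 901) +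
        4 * (50 / 901) ^ 2) := by
    refine intervalIntegral.integral_eq_sub_of_hasDerivAt
      (f := fun t => (2001 / 2000 : ℝ) ^ 2 / 2 * Real.log t - 4 * (2001 / 2000) * t + 4 * t ^ 2) ?_ ?_
    · intro t ht
      have ht0 := h0 t ht
      have e1 : HasDerivAt (fun t : ℝ => (2001 / 2000 : ℝ) ^ 2 / 2 * Real.log t -
          4 * (2001 / 2000) * t + 4 * t ^ 2)
          ((2001 / 2000 : ℝ) ^ 2 / 2 * t⁻¹ - 4 * (2001 / 2000) * 1 + 4 * (2 * t)) t := by
        have e2 := (Real.hasDerivAt_log ht0.ne').const_mul ((2001 / 2000 : ℝ) ^ 2 / 2)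
        have e3 := (hasDerivAt_id t).const_mul (4 * (2001 / 2000 : ℝ))
        have e4 := ((hasDerivAt_pow 2 t)).const_mul (4 : ℝ)
        refine (((e2.sub e3).add e4).congr_of_eventuallyEq
          (Filter.Eventually.of_forall fun _ => rfl)).congr_deriv ?_
        norm_num
      have e6 : ((2001 / 2000 - 4 * t) ^ 2 / 2) / t =
          (2001 / 2000 : ℝ) ^ 2 / 2 * t⁻¹ - 4 * (2001 / 2000) * 1 + 4 * (2 * t) := by
        field_simp
        ring
      rw [e6]
      exact e1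
    · apply ContinuousOn.intervalIntegrable
      refine ContinuousOn.div (by fun_prop) continuousOn_id ?_
      intro t ht
      exact (h0 t ht).ne'
  rw [h1]
  have h2 : Real.log (2001 / 8000) - Real.log (50 / 901) = Real.log (1802901 / 400000) := by
    rw [← Real.log_div (by norm_num) (by norm_num)]
    norm_num
  have h3 := SP_log
  nlinarith [h2, h3]

/-- the sum of `1/p` over the primes of `[z, y)` -/
private theorem SP_recip {C : ℝ} (mer : ∀ a b : ℝ, 2 ≤ a → a ≤ b →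
    ∑ p ∈ (Icc 1 ⌊b⌋₊).filter (fun p : ℕ => p.Prime ∧ a ≤ (p : ℝ)), 1 / (p : ℝ) ≤
      Real.log (Real.log b / Real.log a) + C / Real.log a) {N : ℕ} {z y : ℝ} (hN : 2 ≤ N)
    (hl : 20000 ≤ Real.log N) (hC : 30 * C ≤ Real.log N) (hP : PZ N z y) (A : Finset ℕ)
    (hA : ∀ p ∈ A, P1 z y p) : ∑ p ∈ A, 1 / (p : ℝ) ≤ 4 := by
  obtain ⟨h1, h2, h3, h4⟩ := hP
  have hN0 : (0 : ℝ) < N := by exact_mod_cast (by omega : 0 < N)
  have hla : Real.log ((N : ℝ) ^ (1 / 6 : ℝ)) = Real.log N / 6 := by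
    rw [Real.log_rpow hN0]; ring
  have hlb : Real.log ((N : ℝ) ^ (4 / 5 : ℝ)) = 4 * Real.log N / 5 := by
    rw [Real.log_rpow hN0]; ring
  have ha0 : 0 < (N : ℝ) ^ (1 / 6 : ℝ) := Real.rpow_pos_of_pos hN0 _
  have hb0 : 0 < (N : ℝ) ^ (4 / 5 : ℝ) := Real.rpow_pos_of_pos hN0 _
  have ha2 : (2 : ℝ) ≤ (N : ℝ) ^ (1 / 6 : ℝ) := by
    rw [← Real.log_le_log_iff (by norm_num) ha0, hla]
    have := Real.log_two_lt_d9
    linarith
  have hab : (N : ℝ) ^ (1 / 6 : ℝ) ≤ (N : ℝ) ^ (4 / 5 : ℝ) := by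
    rw [← Real.log_le_log_iff ha0 hb0, hla, hlb]
    linarith
  have h5 := mer _ _ ha2 hab
  rw [hla, hlb] at h5
  have h6 : 4 * Real.log N / 5 / (Real.log N / 6) = 24 / 5 := by
    have : Real.log (N : ℝ) ≠ 0 := by linarith
    field_simp
    norm_num
  rw [h6] at h5
  have h7 : Real.log (24 / 5) ≤ 24 / 5 - 1 := Real.log_le_sub_one_of_pos (by norm_num)
  have h8 : C / (Real.log N / 6) ≤ 1 / 5 := by
    rw [div_le_div_iff₀ (by linarith) (by norm_num)]
    linarith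
  refine le_trans (Finset.sum_le_sum_of_subset_of_nonneg ?_ ?_) (h5.trans (by linarith))
  · intro p hp
    obtain ⟨q1, q2, q3⟩ := hA p hp
    rw [mem_filter, mem_Icc]
    refine ⟨⟨q1.one_le, ?_⟩, q1, h1.trans q2⟩
    exact Nat.le_floor (q3.le.trans h4)
  · intro p _ _
    positivity

/-- the inner double sum -/
private theorem SP_inner {C : ℝ} (hC0 : 0 < C) (tri : ∀ y W : ℝ, 3 ≤ y → W ≤ y ^ 4 →
    ∑ p ∈ (Icc 1 ⌊W⌋₊).filter (fun p : ℕ => p.Prime ∧ y ≤ (p : ℝ)),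
      ∑ p' ∈ (Icc 1 ⌊W⌋₊).filter (fun p' : ℕ => p'.Prime ∧ y ≤ (p' : ℝ) ∧ (p : ℝ) * p' ≤ W),
        1 / ((p : ℝ) * p') ≤ (max 0 (Real.log W / Real.log y - 2)) ^ 2 / 2 + C / Real.log y)
    {N : ℕ} {z y u : ℝ} (hN : 2 ≤ N)
    (hl : 20000 ≤ Real.log N) (hP : PZ N z y) (hu : 0 < u) (hu2 : u ≤ 16 * (N : ℝ) ^ 3)
    {p : ℕ} (hp : P1 z y p) (A : Finset ℕ) (B : ℕ → Finset ℕ)
    (hA : ∀ q ∈ A, q.Prime ∧ y ≤ (q : ℝ))
    (hB : ∀ q ∈ A, ∀ r ∈ B q, r.Prime ∧ y ≤ (r : ℝ) ∧ (p : ℝ) * q * r * y ≤ 2 * u) :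
    ∑ q ∈ A, ∑ r ∈ B q, 1 / ((p : ℝ) * q * r) ≤
      1 / (p : ℝ) * ((max 0 (2001 / 2000 - 4 * (Real.log p / Real.log (8 * (N : ℝ) ^ 3)))) ^ 2 / 2 +
        4 * C / Real.log (8 * (N : ℝ) ^ 3)) := by
  obtain ⟨h1, h2, h3, h4⟩ := hP
  obtain ⟨q1, q2, q3⟩ := hp
  have hN0 : (0 : ℝ) < N := by exact_mod_cast (by omega : 0 < N)
  have hp0 : (0 : ℝ) < p := by exact_mod_cast q1.pos
  have hp2 : (2 : ℝ) ≤ p := by exact_mod_cast q1.two_le
  have ha0 : 0 < (N : ℝ) ^ (1 / 6 : ℝ) := Real.rpow_pos_of_pos hN0 _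
  have hy0 : 0 < y := lt_of_lt_of_le ha0 (h1.trans h2)
  have hLam : Real.log (8 * (N : ℝ) ^ 3) = Real.log 8 + 3 * Real.log N := by
    rw [Real.log_mul (by norm_num) (by positivity), Real.log_pow]
    norm_num
  have hlog8 : 0 < Real.log 8 := Real.log_pos (by norm_num)
  set Lm := Real.log (8 * (N : ℝ) ^ 3) with hLm
  have hLm0 : 60000 ≤ Lm := by linarith
  have hly : Lm ≤ 4 * Real.log y := by
    have := Real.log_le_log (by positivity) h3
    rw [Real.log_pow] at this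
    have e0 : ((4 : ℕ) : ℝ) = 4 := by norm_num
    rw [e0] at this
    exact this
  have hly2 : Real.log y ≤ 4 * Real.log N / 5 := by
    have := Real.log_le_log hy0 h4
    rw [Real.log_rpow hN0] at this
    linarith
  have hlp : Real.log p ≤ Real.log y := Real.log_le_log hp0 q3.le
  have hy3 : 3 ≤ y := by
    rw [← Real.log_le_log_iff (by norm_num) hy0]
    have : Real.log 3 ≤ 3 - 1 := Real.log_le_sub_one_of_pos (by norm_num)
    linarith
  set W : ℝ := 2 * u / (p * y) with hW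
  have hW0 : 0 < W := by positivity
  have hWy : W ≤ y ^ 4 := by
    rw [hW, div_le_iff₀ (by positivity)]
    have e1 : 2 * u ≤ 4 * y ^ 4 := by linarith
    have e2 : (4 : ℝ) ≤ p * y := by nlinarith
    have e3 : 0 ≤ y ^ 4 := by positivity
    nlinarith
  have hT := tri y W hy3 hWy
  -- comparison of the sums
  have hcmp : ∑ q ∈ A, ∑ r ∈ B q, 1 / ((p : ℝ) * q * r) ≤ 1 / (p : ℝ) *
      ∑ p ∈ (Icc 1 ⌊W⌋₊).filter (fun p : ℕ => p.Prime ∧ y ≤ (p : ℝ)),
      ∑ p' ∈ (Icc 1 ⌊W⌋₊).filter (fun p' : ℕ => p'.Prime ∧ y ≤ (p' : ℝ) ∧ (p : ℝ) * p' ≤ W),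
        1 / ((p : ℝ) * p') := by
    have hkey : ∀ q ∈ A, ∀ r ∈ B q, (q : ℝ) * r ≤ W := by
      intro q hq r hr
      obtain ⟨-, -, e3⟩ := hB q hq r hr
      rw [hW, le_div_iff₀ (by positivity)]
      calc (q : ℝ) * r * (p * y) = (p : ℝ) * q * r * y := by ring
        _ ≤ 2 * u := e3
    have e1 : ∑ q ∈ A.filter (fun q : ℕ => (q : ℝ) ≤ W), ∑ r ∈ B q, 1 / ((p : ℝ) * q * r) =
        ∑ q ∈ A, ∑ r ∈ B q, 1 / ((p : ℝ) * q * r) := by
      refine Finset.sum_subset (Finset.filter_subset _ _) fun q hq hq2 => ?_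
      have e2 : B q = ∅ := by
        rw [Finset.eq_empty_iff_forall_notMem]
        intro r hr
        apply hq2
        rw [mem_filter]
        refine ⟨hq, ?_⟩
        have e3 := hkey q hq r hr
        have e4 : (1 : ℝ) ≤ r := by exact_mod_cast (hB q hq r hr).1.one_le
        have e5 : (0 : ℝ) ≤ q := Nat.cast_nonneg _
        nlinarith
      rw [e2, Finset.sum_empty]
    rw [← e1, Finset.mul_sum]
    refine le_trans (Finset.sum_le_sum (g := fun q : ℕ => 1 / (p : ℝ) *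
      ∑ p' ∈ (Icc 1 ⌊W⌋₊).filter (fun p' : ℕ => p'.Prime ∧ y ≤ (p' : ℝ) ∧ (q : ℝ) * p' ≤ W),
        1 / ((q : ℝ) * p')) ?_) (Finset.sum_le_sum_of_subset_of_nonneg ?_ ?_)
    · intro q hq
      rw [mem_filter] at hq
      have hq1 : (1 : ℝ) ≤ q := by exact_mod_cast (hA q hq.1).1.one_le
      rw [Finset.mul_sum]
      have e2 : ∀ r : ℕ, 1 / ((p : ℝ) * q * r) = 1 / (p : ℝ) * (1 / ((q : ℝ) * r)) := by
        intro r
        rw [one_div_mul_one_div, mul_assoc]
      simp_rw [e2]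
      refine Finset.sum_le_sum_of_subset_of_nonneg ?_ ?_
      · intro r hr
        have e3 := hkey q hq.1 r hr
        obtain ⟨f1, f2, f3⟩ := hB q hq.1 r hr
        rw [mem_filter, mem_Icc]
        refine ⟨⟨f1.one_le, Nat.le_floor ?_⟩, f1, f2, e3⟩
        have : (0 : ℝ) ≤ r := Nat.cast_nonneg _
        nlinarith
      · intro r _ _
        positivity
    · intro q hq
      rw [mem_filter] at hq
      obtain ⟨f1, f2⟩ := hA q hq.1
      rw [mem_filter, mem_Icc]
      exact ⟨⟨f1.one_le, Nat.le_floor hq.2⟩, f1, f2⟩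
    · intro q _ _
      refine mul_nonneg (by positivity) (Finset.sum_nonneg fun r _ => ?_)
      positivity
  refine hcmp.trans ?_
  have hp1 : 0 ≤ 1 / (p : ℝ) := by positivity
  refine mul_le_mul_of_nonneg_left (hT.trans ?_) hp1
  have hly0 : 0 < Real.log y := by linarith
  have hlogW : Real.log W = Real.log (2 * u) - Real.log p - Real.log y := by
    rw [hW, Real.log_div (by positivity) (by positivity),
      Real.log_mul (x := (p : ℝ)) (by positivity) (by positivity)]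
    ring
  have hlog4 : Real.log 4 ≤ 3 / 2 := by
    have e1 : Real.log 4 = 2 * Real.log 2 := by
      rw [show (4 : ℝ) = 2 ^ 2 by norm_num, Real.log_pow]
      norm_num
    have := Real.log_two_lt_d9
    rw [e1]; linarith
  have hlog2u : Real.log (2 * u) ≤ Lm + Real.log 4 := by
    rw [hLm, ← Real.log_mul (by positivity) (by norm_num)]
    exact Real.log_le_log (by positivity) (by linarith)
  have hnum : 0 ≤ Lm + Real.log 4 - Real.log p := by
    have : 0 ≤ Real.log 4 := Real.log_nonneg (by norm_num)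
    linarith
  have hmain : Real.log W / Real.log y - 2 ≤ 2001 / 2000 - 4 * (Real.log p / Lm) := by
    have e1 : Real.log W / Real.log y = (Real.log (2 * u) - Real.log p) / Real.log y - 1 := by
      rw [hlogW]
      field_simp
    have e2 : (Real.log (2 * u) - Real.log p) / Real.log y ≤
        (Lm + Real.log 4 - Real.log p) / Real.log y := by
      apply div_le_div_of_nonneg_right _ hly0.le
      linarith
    have e3 : (Lm + Real.log 4 - Real.log p) / Real.log y ≤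
        (Lm + Real.log 4 - Real.log p) * (4 / Lm) := by
      rw [div_eq_mul_inv]
      refine mul_le_mul_of_nonneg_left ?_ hnum
      rw [inv_eq_one_div, div_le_div_iff₀ hly0 (by linarith)]
      linarith
    have e4 : (Lm + Real.log 4 - Real.log p) * (4 / Lm) =
        4 + 4 * Real.log 4 / Lm - 4 * (Real.log p / Lm) := by
      have : Lm ≠ 0 := by linarith
      field_simp
    have e5 : 4 * Real.log 4 / Lm ≤ 1 / 2000 := by
      rw [div_le_div_iff₀ (by linarith) (by norm_num)]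
      linarith
    rw [e1]
    linarith
  have hC : C / Real.log y ≤ 4 * C / Lm := by
    rw [div_le_div_iff₀ hly0 (by linarith)]
    nlinarith
  have hsq : (max 0 (Real.log W / Real.log y - 2)) ^ 2 ≤
      (max 0 (2001 / 2000 - 4 * (Real.log p / Lm))) ^ 2 := by
    have e1 : max 0 (Real.log W / Real.log y - 2) ≤ max 0 (2001 / 2000 - 4 * (Real.log p / Lm)) :=
      max_le_max le_rfl hmain
    exact pow_le_pow_left₀ (le_max_left _ _) e1 2
  linarith

/-- the main sum over `p` -/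
private theorem SP_outer {C : ℝ} (hC0 : 0 < C) (mab : ∀ (α β L : ℝ) (F : ℝ → ℝ), 0 < α → α ≤ β →
    1 ≤ α * L → AntitoneOn F (Set.Icc α β) → (∀ t ∈ Set.Icc α β, 0 ≤ F t) →
    ∑ p ∈ (Icc 1 ⌊Real.exp (β * L)⌋₊).filter (fun p : ℕ => p.Prime ∧ Real.exp (α * L) ≤ (p : ℝ)),
      F (Real.log p / L) / (p : ℝ) ≤ (∫ t in α..β, F t / t) + C * F α / (α * L))
    {N : ℕ} {z y : ℝ} (hN : 2 ≤ N) (hl : 20000 ≤ Real.log N) (hCN : 100000 * C ≤ Real.log N)
    (hP : PZ N z y) (A : Finset ℕ) (hA : ∀ p ∈ A, P1 z y p) :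
    ∑ p ∈ A, 1 / (p : ℝ) *
      ((max 0 (2001 / 2000 - 4 * (Real.log p / Real.log (8 * (N : ℝ) ^ 3)))) ^ 2 / 2) ≤
      2128 / 10000 := by
  obtain ⟨h1, h2, h3, h4⟩ := hP
  have hN0 : (0 : ℝ) < N := by exact_mod_cast (by omega : 0 < N)
  have hLam : Real.log (8 * (N : ℝ) ^ 3) = Real.log 8 + 3 * Real.log N := by
    rw [Real.log_mul (by norm_num) (by positivity), Real.log_pow]
    norm_num
  have hlog8 : 0 < Real.log 8 := Real.log_pos (by norm_num)
  have hlog8' : Real.log 8 ≤ 8 - 1 := Real.log_le_sub_one_of_pos (by norm_num)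
  set Lm := Real.log (8 * (N : ℝ) ^ 3) with hLm
  have hLm0 : 60000 ≤ Lm := by linarith
  have hmab := mab (50 / 901) (2001 / 8000) Lm (fun t => (2001 / 2000 - 4 * t) ^ 2 / 2)
    (by norm_num) (by norm_num) (by linarith) ?_ ?_
  · have e1 : ∑ p ∈ A.filter (fun p : ℕ => Real.log p / Lm ≤ 2001 / 8000), 1 / (p : ℝ) *
        ((max 0 (2001 / 2000 - 4 * (Real.log p / Lm))) ^ 2 / 2) =
        ∑ p ∈ A, 1 / (p : ℝ) * ((max 0 (2001 / 2000 - 4 * (Real.log p / Lm))) ^ 2 / 2) := by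
      refine Finset.sum_subset (Finset.filter_subset _ _) fun p hp hp2 => ?_
      rw [mem_filter, not_and, not_le] at hp2
      have e2 := hp2 hp
      rw [max_eq_left (by linarith)]
      norm_num
    rw [← e1]
    have e3 : ∑ p ∈ A.filter (fun p : ℕ => Real.log p / Lm ≤ 2001 / 8000), 1 / (p : ℝ) *
        ((max 0 (2001 / 2000 - 4 * (Real.log p / Lm))) ^ 2 / 2) =
        ∑ p ∈ A.filter (fun p : ℕ => Real.log p / Lm ≤ 2001 / 8000),
          (2001 / 2000 - 4 * (Real.log p / Lm)) ^ 2 / 2 / (p : ℝ) := by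
      refine Finset.sum_congr rfl fun p hp => ?_
      rw [mem_filter] at hp
      rw [max_eq_right (by linarith [hp.2])]
      ring
    rw [e3]
    refine le_trans (Finset.sum_le_sum_of_subset_of_nonneg ?_ ?_) (hmab.trans ?_)
    · intro p hp
      rw [mem_filter] at hp
      obtain ⟨q1, q2, q3⟩ := hA p hp.1
      have hp0 : (0 : ℝ) < p := by exact_mod_cast q1.pos
      rw [mem_filter, mem_Icc]
      refine ⟨⟨q1.one_le, Nat.le_floor ?_⟩, q1, ?_⟩
      · rw [← Real.log_le_iff_le_exp hp0]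
        have := hp.2
        rwa [div_le_iff₀ (by linarith)] at this
      · rw [← Real.le_log_iff_exp_le hp0]
        have e5 : Real.log N / 6 ≤ Real.log p := by
          have e6 := Real.log_le_log (Real.rpow_pos_of_pos hN0 _) (h1.trans q2)
          rw [Real.log_rpow hN0] at e6
          linarith
        refine le_trans ?_ e5
        rw [hLam]
        linarith
    · intro p _ _
      positivity
    · have e4 := SP_int
      have e5 : C * ((2001 / 2000 - 4 * (50 / 901 : ℝ)) ^ 2 / 2) / (50 / 901 * Lm) ≤ 1 / 10000 := by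
        rw [div_le_div_iff₀ (by linarith) (by norm_num)]
        nlinarith
      linarith
  · intro s hs t ht hst
    rw [Set.mem_Icc] at hs ht
    dsimp only
    have e1 : 0 ≤ 2001 / 2000 - 4 * t := by linarith [ht.2]
    have e2 : 2001 / 2000 - 4 * t ≤ 2001 / 2000 - 4 * s := by linarith
    have := pow_le_pow_left₀ e1 e2 2
    linarith
  · intro t _
    positivity

open Classical in
/-- row SP of project CH -/
theorem SP (tri : TRI_stmt) (mab : MAB_stmt) (mer : MER_stmt) : SP_stmt := by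
  obtain ⟨C₁, hC₁, tri⟩ := tri
  obtain ⟨C₂, hC₂, mab⟩ := mab
  obtain ⟨C₃, hC₃, mer⟩ := mer
  have h4 := (Real.tendsto_log_atTop.comp
    (tendsto_natCast_atTop_atTop (R := ℝ))).eventually_ge_atTop
    (20000 + 1000000 * C₁ + 100000 * C₂ + 30 * C₃)
  obtain ⟨N₀, hN₀⟩ := (h4.and (Filter.eventually_ge_atTop 2)).exists_forall_of_atTop
  refine ⟨N₀, fun N hN z y u hP hu hu2 => ?_⟩
  obtain ⟨h5, hN2⟩ := hN₀ N hN
  have h5' : 20000 + 1000000 * C₁ + 100000 * C₂ + 30 * C₃ ≤ Real.log N := h5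
  have hl : 20000 ≤ Real.log N := by linarith
  set A := (Icc 1 (64 * N ^ 3)).filter (fun p => P1 z y p) with hAdef
  have hA : ∀ p ∈ A, P1 z y p := fun p hp => (mem_filter.1 hp).2
  have hstep : ∀ p ∈ A, _ ≤ _ := fun p hp =>
    SP_inner hC₁ tri hN2 hl hP hu hu2 (hA p hp)
      ((Icc 1 (64 * N ^ 3)).filter (fun p₂ : ℕ => p₂.Prime ∧ y ≤ (p₂ : ℝ)))
      (fun p₂ => (Icc 1 (64 * N ^ 3)).filter (fun p₃ : ℕ => p₃.Prime ∧ y ≤ (p₃ : ℝ) ∧
        (p : ℝ) * p₂ * p₃ * y ≤ 2 * u))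
      (fun q hq => (mem_filter.1 hq).2) (fun q _ r hr => (mem_filter.1 hr).2)
  refine (Finset.sum_le_sum hstep).trans ?_
  have e1 := SP_outer hC₂ mab hN2 hl (by linarith) hP A hA
  have e2 := SP_recip mer hN2 hl (by linarith) hP A hA
  have hLam : Real.log (8 * (N : ℝ) ^ 3) = Real.log 8 + 3 * Real.log N := by
    have hN0 : (0 : ℝ) < N := by exact_mod_cast (by omega : 0 < N)
    rw [Real.log_mul (by norm_num) (by positivity), Real.log_pow]
    norm_num
  have hlog8 : 0 < Real.log 8 := Real.log_pos (by norm_num)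
  have e3 : 4 * C₁ / Real.log (8 * (N : ℝ) ^ 3) ≤ 1 / 100000 := by
    rw [div_le_div_iff₀ (by linarith) (by norm_num)]
    linarith
  have e4 : ∑ p ∈ A, 1 / (p : ℝ) * ((max 0 (2001 / 2000 -
      4 * (Real.log p / Real.log (8 * (N : ℝ) ^ 3)))) ^ 2 / 2 +
        4 * C₁ / Real.log (8 * (N : ℝ) ^ 3)) =
      ∑ p ∈ A, 1 / (p : ℝ) * ((max 0 (2001 / 2000 -
        4 * (Real.log p / Real.log (8 * (N : ℝ) ^ 3)))) ^ 2 / 2) +
      (∑ p ∈ A, 1 / (p : ℝ)) * (4 * C₁ / Real.log (8 * (N : ℝ) ^ 3)) := by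
    rw [Finset.sum_mul, ← Finset.sum_add_distrib]
    refine Finset.sum_congr rfl fun p _ => ?_
    ring
  rw [e4]
  have e5 : 0 ≤ 4 * C₁ / Real.log (8 * (N : ℝ) ^ 3) := by
    apply div_nonneg (by linarith)
    rw [hLam]; linarith
  nlinarith

end Pool.Agent.CH
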