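import Pool.Agent.helper17.CH.SpecW

/-!
# Project CH (MP_5628fe_nt), row WN: the sums over almost all windows
-/

set_option autoImplicit false

namespace Pool.Agent.CH

open Finset ArithmeticFunction MeasureTheory

private theorem WN_asymp (A : ℕ) : ∃ N₀ : ℕ, ∀ N : ℕ, N₀ ≤ N → 3000 ≤ N ∧ 8 ≤ Real.log N ∧
    24 * Real.log N ^ (A + 1) ≤ (N : ℝ) ^ ((1 : ℝ) / 40) := by
  have h1 := isLittleO_log_rpow_rpow_atTop ((A : ℝ) + 1) (show (0 : ℝ) < 1 / 40 by norm_num)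
  have h2 := h1.def (show (0 : ℝ) < 1 / 24 by norm_num)
  have h3 := tendsto_natCast_atTop_atTop (R := ℝ) |>.eventually h2
  have h4 := (Real.tendsto_log_atTop.comp (tendsto_natCast_atTop_atTop (R := ℝ))).eventually_ge_atTop 8
  obtain ⟨N₀, hN⟩ := (h3.and (h4.and (Filter.eventually_ge_atTop 3000))).exists_forall_of_atTop
  refine ⟨N₀, fun N hN0 => ?_⟩
  obtain ⟨h5, h6, h7⟩ := hN N hN0
  have h6' : 8 ≤ Real.log N := h6
  refine ⟨h7, h6', ?_⟩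
  have hl : 0 ≤ Real.log (N : ℝ) := by linarith
  rw [Real.norm_of_nonneg (Real.rpow_nonneg hl _),
    Real.norm_of_nonneg (Real.rpow_nonneg (Nat.cast_nonneg _) _)] at h5
  have h8 : Real.log (N : ℝ) ^ ((A : ℝ) + 1) = Real.log N ^ (A + 1) := by
    rw [show ((A : ℝ) + 1) = ((A + 1 : ℕ) : ℝ) by push_cast; ring, Real.rpow_natCast]
  rw [h8] at h5
  linarith

private theorem WN_core {N : ℕ} (A B₂ : ℕ) (hN : 3000 ≤ N) (hl : 8 ≤ Real.log N)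
    (hbig : 24 * Real.log N ^ (A + 1) ≤ (N : ℝ) ^ ((1 : ℝ) / 40))
    (bd : ∀ c : ℕ → ℝ, (∀ n, |c n| ≤ 1) → ∀ (F₀ : ℝ) (f : ℕ → ℂ), (∀ j, ‖f j‖ ≤ F₀) →
      ‖∑ j ∈ Ioc 0 (64 * N ^ 3), f j *
        ((cc N c j - Ph N c (de (1 / 20) N) (Real.log j) : ℝ) : ℂ)‖ ≤
        F₀ * (N : ℝ) ^ (3 - (1 / 20 : ℝ) / 2))
    (lps : LPS_stmt) (c : ℕ → ℝ) (hc : ∀ n, |c n| ≤ 1) (f : ℕ → ℂ)
    (hf : ∀ j, j ∈ Ioc 0 (64 * N ^ 3) → ‖f j‖ ≤ Real.log j + 1)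
    (hp : ∀ u ≤ 64 * N ^ 3, ‖∑ j ∈ Ioc 0 u, f j‖ ≤ (N : ℝ) ^ 3 / Real.log N ^ (A + B₂ + 2))
    (hg : ‖∑ j ∈ Ioc 0 (64 * N ^ 3), f j * gW N c (de (1 / 20) N) (dB B₂ N) j‖ ≤
      2 * ((N : ℝ) ^ 3 / Real.log N ^ (A + 1))) :
    ‖∑ j ∈ Ioc 0 (64 * N ^ 3), f j * (cc N c j : ℂ)‖ ≤ (N : ℝ) ^ 3 / Real.log N ^ A := by
  have hN0 : (0 : ℝ) < N := by exact_mod_cast (by omega : 0 < N)
  have hl0 : 0 < Real.log (N : ℝ) := by linarith
  have hd0 : 0 < dB B₂ N := by unfold dB; positivity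
  have hd1 : dB B₂ N ≤ 1 := by
    unfold dB
    rw [div_le_one (by positivity)]
    exact one_le_pow₀ (by linarith)
  have hlog64 : Real.log ((64 * N ^ 3 : ℕ) : ℝ) ≤ 6 * Real.log N - 1 := by
    have h1 : ((64 * N ^ 3 : ℕ) : ℝ) ≤ (N : ℝ) ^ 4 := by
      have h2 : 64 * N ^ 3 ≤ N ^ 4 := by
        have : 64 * N ^ 3 ≤ N * N ^ 3 := Nat.mul_le_mul_right _ (by omega)
        calc 64 * N ^ 3 ≤ N * N ^ 3 := this
          _ = N ^ 4 := by ring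
      exact_mod_cast h2
    have h3 : Real.log ((64 * N ^ 3 : ℕ) : ℝ) ≤ Real.log ((N : ℝ) ^ 4) :=
      Real.log_le_log (by positivity) h1
    rw [Real.log_pow] at h3
    push_cast at h3 ⊢
    linarith
  -- truncated coefficients
  set f' : ℕ → ℂ := fun j => if j ∈ Ioc 0 (64 * N ^ 3) then f j else 0 with hf'
  have hF : ∀ j, ‖f' j‖ ≤ 6 * Real.log N := by
    intro j
    rw [hf']
    dsimp only
    split_ifs with hj
    · have h1 := hf j hj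
      have h2 : Real.log j ≤ Real.log ((64 * N ^ 3 : ℕ) : ℝ) := by
        rw [mem_Ioc] at hj
        exact Real.log_le_log (by exact_mod_cast hj.1) (by exact_mod_cast hj.2)
      linarith
    · rw [norm_zero]; positivity
  have hb := bd c hc _ f' hF
  have hb' : ‖∑ j ∈ Ioc 0 (64 * N ^ 3), f j *
      ((cc N c j - Ph N c (de (1 / 20) N) (Real.log j) : ℝ) : ℂ)‖ ≤
      6 * Real.log N * (N : ℝ) ^ (3 - (1 / 20 : ℝ) / 2) := by
    refine le_trans (le_of_eq ?_) hb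
    congr 1
    refine Finset.sum_congr rfl fun j hj => ?_
    rw [hf']
    dsimp only
    rw [if_pos hj]
  have hL := lps N (64 * N ^ 3) c (dB B₂ N) ((N : ℝ) ^ 3 / Real.log N ^ (A + B₂ + 2)) f
    (by omega) hc hd0 hd1 hp
  have hsplit : ∑ j ∈ Ioc 0 (64 * N ^ 3), f j * (cc N c j : ℂ) =
      ∑ j ∈ Ioc 0 (64 * N ^ 3), f j *
        ((cc N c j - Ph N c (de (1 / 20) N) (Real.log j) : ℝ) : ℂ) +
      ∑ j ∈ Ioc 0 (64 * N ^ 3), f j * gW N c (de (1 / 20) N) (dB B₂ N) j +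
      ∑ j ∈ Ioc 0 (64 * N ^ 3), f j * ((Ph N c (dB B₂ N) (Real.log j) : ℝ) : ℂ) := by
    rw [← Finset.sum_add_distrib, ← Finset.sum_add_distrib]
    refine Finset.sum_congr rfl fun j _ => ?_
    unfold gW
    push_cast
    ring
  -- sizes
  have e1 : 6 * Real.log N * (N : ℝ) ^ (3 - (1 / 20 : ℝ) / 2) ≤
      (N : ℝ) ^ 3 / Real.log N ^ A / 4 := by
    have h1 : (N : ℝ) ^ (3 - (1 / 20 : ℝ) / 2) = (N : ℝ) ^ 3 / (N : ℝ) ^ ((1 : ℝ) / 40) := by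
      rw [show (3 - (1 / 20 : ℝ) / 2) = ((3 : ℕ) : ℝ) - 1 / 40 by norm_num,
        Real.rpow_sub hN0, Real.rpow_natCast]
    rw [h1]
    have h2 : 0 < (N : ℝ) ^ ((1 : ℝ) / 40) := Real.rpow_pos_of_pos hN0 _
    rw [div_div, ← mul_div_assoc, div_le_div_iff₀ h2 (by positivity)]
    have h3 : (0 : ℝ) < (N : ℝ) ^ 3 := by positivity
    calc 6 * Real.log N * (N : ℝ) ^ 3 * (Real.log N ^ A * 4)
        = (N : ℝ) ^ 3 * (24 * Real.log N ^ (A + 1)) := by ring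
      _ ≤ (N : ℝ) ^ 3 * (N : ℝ) ^ ((1 : ℝ) / 40) := by gcongr
  have e2 : 2 * ((N : ℝ) ^ 3 / Real.log N ^ (A + 1)) ≤ (N : ℝ) ^ 3 / Real.log N ^ A / 4 := by
    have h3 : 0 ≤ (N : ℝ) ^ 3 / Real.log N ^ A := by positivity
    have h4 : (N : ℝ) ^ 3 / Real.log N ^ (A + 1) =
        (N : ℝ) ^ 3 / Real.log N ^ A / Real.log N := by
      rw [pow_succ (Real.log (N : ℝ)) A, div_div]
    rw [h4, ← mul_div_assoc, div_le_div_iff₀ hl0 (by norm_num)]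
    nlinarith
  have e3 : 4 * ((N : ℝ) ^ 3 / Real.log N ^ (A + B₂ + 2)) / dB B₂ N ≤
      (N : ℝ) ^ 3 / Real.log N ^ A / 4 := by
    unfold dB
    have h3 : 0 < (N : ℝ) ^ 3 / Real.log N ^ A := by positivity
    have h4 : 4 * ((N : ℝ) ^ 3 / Real.log N ^ (A + B₂ + 2)) / (1 / Real.log N ^ B₂) =
        (N : ℝ) ^ 3 / Real.log N ^ A * (4 / Real.log N ^ 2) := by
      have : Real.log (N : ℝ) ≠ 0 := hl0.ne'
      field_simp
      ring
    rw [h4]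
    have h5 : 4 / Real.log (N : ℝ) ^ 2 ≤ 1 / 4 := by
      rw [div_le_div_iff₀ (by positivity) (by norm_num)]
      nlinarith
    calc (N : ℝ) ^ 3 / Real.log N ^ A * (4 / Real.log N ^ 2)
        ≤ (N : ℝ) ^ 3 / Real.log N ^ A * (1 / 4) := by gcongr
      _ = _ := by ring
  rw [hsplit]
  have h3 : 0 ≤ (N : ℝ) ^ 3 / Real.log N ^ A := by positivity
  refine (norm_add₃_le).trans ?_
  linarith [hb', hg, hL, e1, e2, e3]

/-- row WN of project CH -/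
theorem WN (hw : HW_stmt) (bd : BD_stmt) (lps : LPS_stmt) (ps : PS_stmt) : WN_stmt := by
  intro A B
  obtain ⟨B₂, h1⟩ := hw (1 / 20) (A + 1) B (by norm_num) (by norm_num)
  obtain ⟨N₁, h2⟩ := h1 B₂ le_rfl
  obtain ⟨N₂, h3⟩ := bd (1 / 20) (by norm_num) (by norm_num)
  obtain ⟨N₃, h4⟩ := ps (A + B₂ + 2) B
  obtain ⟨N₄, h5⟩ := WN_asymp A
  refine ⟨max (max N₁ N₂) (max N₃ N₄), fun N hN q hq hqB χ c hc => ?_⟩
  have hN1 : N₁ ≤ N := by omega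
  have hN2 : N₂ ≤ N := by omega
  have hN3 : N₃ ≤ N := by omega
  have hN4 : N₄ ≤ N := by omega
  obtain ⟨h6, h7, h8⟩ := h5 N hN4
  obtain ⟨h9, h10⟩ := h2 N hN1 c hc
  have h11 := h9 q hq hqB χ
  have h12 := h3 N hN2
  have h13 := h4 N hN3 q hq hqB χ
  have hpos : 0 ≤ (N : ℝ) ^ 3 / Real.log N ^ (A + 1) := by
    have : 0 ≤ Real.log (N : ℝ) := by linarith
    positivity
  have hLam : ∀ j : ℕ, j ∈ Ioc 0 (64 * N ^ 3) → ‖(vonMangoldt j : ℂ) * χ j‖ ≤ Real.log j := by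
    intro j hj
    rw [norm_mul]
    have h14 : ‖((vonMangoldt j : ℝ) : ℂ)‖ ≤ Real.log j := by
      rw [Complex.norm_real, Real.norm_of_nonneg vonMangoldt_nonneg]
      exact vonMangoldt_le_log
    have h15 : ‖χ j‖ ≤ 1 := DirichletCharacter.norm_le_one χ _
    calc ‖((vonMangoldt j : ℝ) : ℂ)‖ * ‖χ j‖ ≤ ‖((vonMangoldt j : ℝ) : ℂ)‖ * 1 := by gcongr
      _ ≤ Real.log j := by rw [mul_one]; exact h14
  constructor
  · intro hχ
    refine WN_core A B₂ h6 h7 h8 h12 lps c hc (fun j => (vonMangoldt j : ℂ) * χ j) ?_ ?_ ?_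
    · intro j hj
      have := hLam j hj
      linarith
    · intro u hu
      exact (h13 u hu).1 hχ
    · refine h11.trans ?_
      linarith
  · intro hχ
    refine WN_core A B₂ h6 h7 h8 h12 lps c hc (fun j => (vonMangoldt j : ℂ) * χ j - 1) ?_ ?_ ?_
    · intro j hj
      have h16 := hLam j hj
      refine (norm_sub_le _ _).trans ?_
      rw [norm_one]
      linarith
    · intro u hu
      exact (h13 u hu).2 hχ
    · have h17 : ∑ j ∈ Ioc 0 (64 * N ^ 3), ((vonMangoldt j : ℂ) * χ j - 1) *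
          gW N c (de (1 / 20) N) (dB B₂ N) j =
          ∑ j ∈ Ioc 0 (64 * N ^ 3), (vonMangoldt j : ℂ) * χ j *
            gW N c (de (1 / 20) N) (dB B₂ N) j -
          ∑ j ∈ Ioc 0 (64 * N ^ 3), gW N c (de (1 / 20) N) (dB B₂ N) j := by
        rw [← Finset.sum_sub_distrib]
        refine Finset.sum_congr rfl fun j _ => ?_
        ring
      rw [h17]
      refine (norm_sub_le _ _).trans ?_
      linarith

end Pool.Agent.CH
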